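import Mathlib
import Pool.Agent.Q225.NN.Good

/-!
# 3SUM: neural networks

The input consists of `2 n` distinct integers of absolute value at most `(2 n) ^ 3`; the question is
whether three of them have the sum zero. The items of the input are the first `n` numbers and the
list of the other `n` numbers.

A neural network (`Net ι D G k p d h`, `Pool.Agent.Q225.NN.Defs`) has a finite set `G` of neurons on
`h` levels. A neuron has `k` channels; on each channel it gets a linear form, with arbitrary real
weights and of any fan-in, of the values of the neurons of lower levels, plus arbitrary real functions
of each single item. Its value is a piecewise polynomial function of the `k` numbers on its channels: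
the signs of `p` polynomials are determined, and then a polynomial, which depends on these signs, is
evaluated; all degrees are at most `d`. So threshold gates (with values `0` and `1`), rectified linear
units, maxima, comparisons and products, of linear forms of any number of values, are allowed. The
network accepts if the value of the output neuron is positive; the margin may be arbitrarily small.
There is no restriction on the use of the value of a neuron by other neurons. The load (`load`) is the
number of pairs of a neuron and of one of the first `n` numbers on which the value of the neuron
depends, directly or by other neurons. The neurons which depend only on the other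
`n` numbers are free.

Result: random networks with error probability at most `1 / 3` and `|G| (p + 1) d ^ h ≤ n ^ a` need
`n ^ 2 / (386 a) ≤ (h + 1) k E [load] + n`, for `n ≥ 1000` and `a ≥ 1`; if the pieces are constant
(`Steps`), for instance for threshold gates, `n ^ 2 / (386 a) ≤ k E [load] + n` holds for any number of
levels.

Proof. Each of the first `n` numbers can ask for about `n log₂ n / 7` bits of the list. If the other items are fixed, then the value of the
network as a function of `x_i` is determined by the `k` numbers which the other neurons and items
contribute to each neuron that depends on `x_i`. So if `r` neurons depend on `x_i`, the functions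
of `x_i` which occur are given by `k r` real parameters, and the signs of all tests are those of
polynomials of degree at most `d ^ h` in these parameters, which are determined level by level; by
Warren's theorem there are at most `M ^ ((h + 1) k r + 1)` functions, `log₂ M = O (a log₂ n)`, and
`M ^ (k r + 1)` if the pieces are constant (then the tests have degree `d` for each choice of the values
of the neurons on which they depend, and a network with threshold gates is determined by them).
-/

set_option autoImplicit false

namespace Pool.Agent.Results.MP_13bec0_lc.NeuralNetworks

open Pool.Agent.TH697.Form (IsProb)
open Pool.Agent.TH697.Row (ApproximatesOn)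
open Pool.Agent.TH697.Form.ThreeSum (Item Valid)
open Pool.Agent.TH457.Ary.ZeroSum (zeroSum)
open Pool.Agent.Q225.SP (somes card_somes)
open Pool.Agent.Q225.LS (good_zeroSum asks_somes)
open Pool.Agent.Q225.NN

theorem result : ∀ n a : ℕ, 1000 ≤ n → 1 ≤ a →
    ∀ (G : Type) [Fintype G] (k p d h : ℕ) (Ω : Type) [Fintype Ω] (μ : Ω → ℝ), IsProb μ →
      ∀ N : Ω → Net (Option (Fin n)) (Item n n) G k p d h,
      ApproximatesOn μ (fun ω => (N ω).accepts) (Valid n n) (zeroSum n) →
        (1 ≤ d → Fintype.card G * (p + 1) * d ^ h ≤ n ^ a →
          (n : ℝ) ^ 2 / (386 * a) ≤
            (h + 1) * k * mean μ (fun ω => (N ω).load (somes n)) + n) ∧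
        ((∀ ω, (N ω).Steps) → Fintype.card G * (p + 1) * d ≤ n ^ a →
          (n : ℝ) ^ 2 / (386 * a) ≤
            k * mean μ (fun ω => (N ω).load (somes n)) + n) := by
  intro n a hn ha G _ k p d h Ω _ μ hμ N hF
  obtain ⟨b, hb, hg8, hb2⟩ := Pool.Agent.TH457.Ary.ThreeSum.params (n := n) (by omega)
  have hT := Pool.Agent.TH457.Ary.ThreeSum.card_T (n := n) (by omega) hb2
  have hg := good_zeroSum hn ha hg8 hT
  have hk := asks_somes (D := Item n n) (f := zeroSum n)
    (Pool.Agent.Y638.RF.ZeroSum.asks hb (by omega))
  refine ⟨fun hd hL => ?_, fun hN hL => ?_⟩
  · have h := net_bound hg hk hd hL μ hμ N hF
    rwa [card_somes] at h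
  · have h := steps_bound hg hk hL μ hμ N hN hF
    rwa [card_somes] at h

end Pool.Agent.Results.MP_13bec0_lc.NeuralNetworks
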