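import Mathlib
import Pool.Agent.Q225.SD.ZeroSum

/-!
# 3SUM: circuits of formulas with determinants, with shared bits

The input consists of `2 n` distinct integers of absolute value at most `(2 n) ^ 3`; the question is
whether three of them have the sum zero. The items of the input are the first `n` numbers and the
list of the other `n` numbers.

A formula (`Fml`, `Pool.Agent.Y649.DG.Defs`) is built from real constants, arbitrary real functions of
one item, and arbitrary real functions of `w` words with `(2 n) ^ c` values, where each word is an arbitrary
function of one item, by sign tests `pos` (with the values `0`, `1`), gates `sym` of any fan-in whose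
value is an arbitrary real function of the number of positive inputs, determinants `det` of real
matrices of any order whose entries are formulas (sums and products are determinants of order two),
and tests `reg`: is the matrix over an arbitrary field, of any order, whose entry `(a, b)` is `c' a b`
or `c a b`, according to whether the formula `(a, b)` is positive or not, regular?

A circuit (`Circuit`, `Pool.Agent.Q225.SD.Defs`) consists of any number of gates. Each gate is a
formula of size at most `n ^ a` which may read the items and the bits computed by all earlier gates
(in the formulas, the bits of the earlier gates are further items); its bit tells whether its value is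
positive, and may be used any number of times. For an item `i`, let `squares i` be the sum over all
gates of the square of the number of the leaves which see something that depends on item `i` (the item
itself, or the bit of a gate which depends on it, directly or by other gates). The load is the sum of
the square roots of these numbers over the first `n` numbers.

1. Random circuits with error probability at most `1 / 3` need
   `n ^ 3 ≤ 80000000 (a + w c) E [load] ^ 2`, for `n ≥ 1000` and `a ≥ 1`. So everything that is
   computed from the last `n` numbers alone is free.
2. If each gate has size at most `s`, and each bit that may be used depends on at most `d` of the first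
   `n` numbers, then `n ^ 2 ≤ 80000000 (a + w c) s w d E [size]`; so small local gates need nearly
   quadratic size.
3. Nondeterministic networks which are guarded by real formulas (`Net`; for instance branching
   programs) are circuits without shared gates, and their load is at most `w` times their size.

The starting result `DeterminantGates` in this folder is about formulas, without shared bits.

Proof. Each of the first `n` numbers can ask for about `n log₂ n / 7` bits of the list. We count the functions of this number which
arise at the gates which depend on it, when the other items are fixed: for given functions at the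
earlier gates, a gate is a formula in one item (this item with the functions of the earlier dependent
gates) and in independent parameters (everything else, also the bits of the gates which do not depend
on this item), and such a formula has `2 ^ O (r ^ 2 (a + w c) log n)` functions, if `r` leaves depend
on the item: the other parts of the formula enter a determinant with `r` live entries only through
`O (r ^ 2)` numbers (Schur complement; `Pool.Agent.Y649.DG.sub`, from the starting library, which rests
on the theorems of Warren and of Rónyai, Babai and Ganapathy on sign and zero patterns).
-/

set_option autoImplicit false

namespace Pool.Agent.Results.MP_13bec0_lc.SharedDeterminants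

open Pool.Agent.TH697.Form (IsProb)
open Pool.Agent.TH697.Row (ApproximatesOn)
open Pool.Agent.Y638.RF (Net)
open Pool.Agent.TH697.Form.ThreeSum (Item Valid)
open Pool.Agent.TH457.Ary.ZeroSum (zeroSum)
open Pool.Agent.Q225.SP (somes)
open Pool.Agent.Q225.SD

theorem result :
    (∀ n a c w : ℕ, 1000 ≤ n → 1 ≤ a → 1 ≤ w →
      ∀ (Ω : Type) [Fintype Ω] (μ : Ω → ℝ), IsProb μ →
        ∀ C : Ω → Circuit (Option (Fin n)) (Item n n) w ((2 * n) ^ c),
          (∀ ω, (C ω).SizeLE (n ^ a)) →
          ApproximatesOn μ (fun ω => (C ω).eval) (Valid n n) (zeroSum n) →
          (n : ℝ) ^ 3 ≤ 80000000 * (a + w * c) * mean μ (fun ω => (C ω).load (somes n)) ^ 2) ∧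
    (∀ n a c w s d : ℕ, 1000 ≤ n → 1 ≤ a → 1 ≤ w → 1 ≤ d → s ≤ n ^ a →
      ∀ (Ω : Type) [Fintype Ω] (μ : Ω → ℝ), IsProb μ →
        ∀ C : Ω → Circuit (Option (Fin n)) (Item n n) w ((2 * n) ^ c), (∀ ω, (C ω).SizeLE s) →
          (∀ ω, (C ω).IsLocal (somes n) d) →
          ApproximatesOn μ (fun ω => (C ω).eval) (Valid n n) (zeroSum n) →
          (n : ℝ) ^ 2 ≤ 80000000 * (a + w * c) *
            (s * w * d * mean μ (fun ω => ((C ω).size : ℝ)))) ∧
    (∀ (ι : Type) (D : ι → Type) [DecidableEq ι] (I : Finset ι) (w q : ℕ) (N : Net ι D w q),
      1 ≤ w → ∃ C : Circuit ι D w q, C.shared = 0 ∧ C.size ≤ N.size ∧ C.load I ≤ w * N.size ∧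
        ∀ x, C.eval x = N.eval x) :=
  ⟨fun _ _ _ _ hn ha hw _ _ μ hμ C hC hF => zeroSum_bound hn ha hw μ hμ C hC hF,
    fun _ _ _ _ _ _ hn ha hw hd hs _ _ μ hμ C hC hL hF =>
      zeroSum_local hn ha hw hd hs μ hμ C hC hL hF,
    fun _ _ _ I _ _ N hw => exists_of_net I N hw⟩

end Pool.Agent.Results.MP_13bec0_lc.SharedDeterminants
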