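import Mathlib
import Pool.Agent.Q202.ST.Lower

/-!
# 3SUM: circuits of tensor networks

The input consists of `2 n` distinct integers of absolute value at most `(2 n) ^ 3`; the question is
whether three of them have the sum zero. The items of the input are the first `n` numbers and the
list of the other `n` numbers.

The gates of a circuit (`Circuit`, `Pool.Agent.Q202.ST.Defs`) are tree tensor networks (`Net`) of any
size: the edges carry vectors with the coordinates `S`, over the real numbers or over any field (which
may be different for different gates), the inner nodes contract two vectors with a constant tensor or
multiply a vector by a matrix which is an arbitrary function of one item, or of the bit of an earlier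
gate. The bit of a gate is one if a linear function of the last vector is positive (for real networks)
or not zero. The bits may be used any number of times. So gates may be arithmetic formulas,
matrix products, oblivious branching programs of width `|S|` (deterministic, nondeterministic,
counting modulo a prime, with unbounded error), and all of this may be combined freely.

Result: random circuits with error probability at most `1 / 3` need

  `n ^ 2 / (386 a) ≤ 3 |S| ^ 2 E [load] + n`,

for `n ≥ 1000`, `a ≥ 1`, where the load is the number of pairs of one of the first `n` numbers and a
matrix (of any gate) which depends on it (directly or through the bit of an earlier gate), if in every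
gate at most `n ^ a / 3` matrices depend on the same number. Parts of the circuit which depend on the
other `n` numbers only are free, and so are the nodes with constant tensors.

Proof. Each of the first `n` numbers can ask for about `n log₂ n / 7` bits of the list. If the other
items are fixed, then a network in which `r ≥ 1` matrices depend on `x_i` computes, for given values of
the bits which depend on `x_i`, a polynomial of degree less than `3 r` in at most `(3 r - 1) |S| ^ 2`
parameters: the matrices of the parts between the branching nodes and the matrices which depend on
`x_i` are collected in single matrices. So by the theorems of Warren (signs) and of Rónyai, Babai and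
Ganapathy (zero patterns) the gates which depend on `x_i` have, one after the other, few functions.
-/

set_option autoImplicit false

namespace Pool.Agent.Results.MP_13bec0_lc.TensorNetworkCircuits

open Pool.Agent.TH697.Form (IsProb)
open Pool.Agent.TH697.Row (ApproximatesOn)
open Pool.Agent.TH697.Form.ThreeSum (Item Valid)
open Pool.Agent.TH457.Ary.ZeroSum (zeroSum)
open Pool.Agent.Q225.SP (somes card_somes)
open Pool.Agent.Q225.LS (mean good_zeroSum asks_somes)
open Pool.Agent.Q202.ST

theorem result : ∀ n a L : ℕ, 1000 ≤ n → 1 ≤ a → 3 * L ≤ n ^ a →
    ∀ (S : Type) [Fintype S] (Ω : Type) [Fintype Ω] (μ : Ω → ℝ), IsProb μ →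
      ∀ C : Ω → Circuit (Option (Fin n)) (Item n n) S, (∀ ω, GateLoadLE (somes n) L (C ω)) →
        ApproximatesOn μ (fun ω => accepts (C ω)) (Valid n n) (zeroSum n) →
        (n : ℝ) ^ 2 / (386 * a) ≤
          3 * (Fintype.card S : ℝ) ^ 2 * mean μ (fun ω => load (somes n) (C ω)) + n := by
  intro n a L hn ha hL S _ Ω _ μ hμ C hC hF
  obtain ⟨b, hb, hg8, hb2⟩ := Pool.Agent.TH457.Ary.ThreeSum.params (n := n) (by omega)
  have hT := Pool.Agent.TH457.Ary.ThreeSum.card_T (n := n) (by omega) hb2
  have hg := good_zeroSum hn ha hg8 hT
  have hk := asks_somes (D := Item n n) (f := zeroSum n)
    (Pool.Agent.Y638.RF.ZeroSum.asks hb (by omega))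
  have h := bound hg hL hk μ hμ C hC hF
  rwa [card_somes] at h

end Pool.Agent.Results.MP_13bec0_lc.TensorNetworkCircuits
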