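import Pool.Agent.Q226.SUF.Main

/-!
# 3SUM by circuits whose negations are unreliable needs `n ^ (2 - o(1))` gates

A set of at most `n` integers between `0` and `B` is given by bits: for each integer `z` in this
range and each tag `k < K` there is a bit of the position `(z, k)`, and `z` belongs to the set if one
of its bits is `1`. Only inputs in which no integer has two bits `1` are considered; the tags have no
meaning. The question is whether there are three different elements with `a + b = c`.

The model: circuits of arbitrary nondecreasing real gates of fan-in two whose inputs are these bits
and their negations. A randomised circuit is a finite family of such circuits, one of which is chosen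
uniformly at random. All circuits of AND, OR and NOT gates can be brought into this form by doubling
their size; no bound on the depth is assumed.

Faults: each negated input (the information that a bit is `0`) is stuck at `0`, independently with
probability `1 / D`. The other inputs and all gates are reliable. Faults can only turn an accepting
computation into a rejecting one.

Theorem. Let `t < 2` and `b > 0`. For all large `n`, every range `B ≥ n ^ (1 + b)`, every fault rate
`1 / D`, however small, and `K ≥ D log (40 (B + 1))` tags, a randomised circuit with at most `n ^ t`
gates errs: it accepts a set with a solution with probability less than `2 / 3` under faults, or it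
accepts a set without a solution with probability more than `1 / 3` without faults. So
`n ^ (2 - o(1))` gates are needed, as conjectured for all algorithms. For `b < 1` the input has fewer
bits, `O(D n ^ (1 + b) log n)`.

* With reliable negations the fast Fourier transform gives circuits of size `n ^ (1 + b + o(1))`. So
  the fast Fourier transform cannot be made to work with negated inputs that are unreliable at a rate
  as small as one likes.
* For `D = 1` all negated inputs are `0`. This is the case without negations, part of the starting
  result `MonotoneCircuits`, which is used in the proof.

The proof: every element gets a random tag. The negated inputs of the positions that the other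
integers would get are as good as faulty ones, because with high probability every integer has a
faulty position. So all negated inputs that depend on the set can be replaced by `0`, and this gives
a randomised circuit without negations.
-/

set_option autoImplicit false

namespace Pool.Agent.Results.MP_13bec0_lc.UnreliableNegations

open Filter Pool.Agent.Q226.FL2 Pool.Agent.Q226.SUF

/-- Let `0 ≤ t < 2`, `b > 0`, `n` large, `B ≥ n ^ (1 + b)`, `D ≥ 1` and `K ≥ D log (40 (B + 1))`. Let
`C ω`, `ω ∈ Ω`, be circuits of nondecreasing real gates of fan-in two on the bits of the positions
and their negations, with at most `n ^ t` gates. Then there is an input with at most one tag for each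
integer and at most `n` elements such that either there is a solution and the input is accepted with
probability less than `2 / 3` over `ω` and the faults, where each negated input is stuck at `0` with
probability `1 / D`, or there is no solution and it is accepted with probability more than `1 / 3`
over `ω` without faults. -/
theorem result (t b : ℝ) (ht : 0 ≤ t) (ht2 : t < 2) (hb : 0 < b) :
    ∀ᶠ n : ℕ in atTop, ∀ B D K : ℕ, (n : ℝ) ^ (1 + b) ≤ B → 1 ≤ D →
      D * Real.log (40 * (B + 1)) ≤ K →
      ∀ (Ω : Type) [Fintype Ω] [Nonempty Ω] (C : Ω → LiteralCircuit (Fin (B + 1) × Fin K)),
      (∀ ω, ((C ω).s : ℝ) ≤ (n : ℝ) ^ t) →
      ∃ x : Fin (B + 1) × Fin K → Bool, OneTag x ∧ (ints x).card ≤ n ∧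
        ((HasSum (ints x) ∧ faultyProbability (fun ω y => (C ω).Accepts y) D x < 2 / 3) ∨
        (¬ HasSum (ints x) ∧ 1 / 3 < probability (fun ω y => (C ω).Accepts y) x)) :=
  main t b ht ht2 hb

end Pool.Agent.Results.MP_13bec0_lc.UnreliableNegations
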